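import Mathlib

/-!
# Arithmetic of the prime step of the Farey discrepancy
-/

set_option autoImplicit false

namespace Pool.Agent.Lib_helper51.FA

open Finset ArithmeticFunction
open scoped ArithmeticFunction.Moebius ArithmeticFunction.zeta

/-- the residues coprime to `q` -/
def fr (q : ℕ) : Finset ℕ := (Icc 1 q).filter fun a => a.Coprime q

theorem mem_fr {q a : ℕ} : a ∈ fr q ↔ (1 ≤ a ∧ a ≤ q) ∧ a.Coprime q := by
  simp [fr]

theorem den_div {a q : ℕ} (hq : 0 < q) (h : a.Coprime q) : ((a : ℚ) / q).den = q := by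
  have h1 := Rat.den_div_eq_of_coprime (a := (a : ℤ)) (b := (q : ℤ)) (by exact_mod_cast hq)
    (by simpa using h)
  have h2 : (((a : ℤ) : ℚ) / ((q : ℤ) : ℚ)) = (a : ℚ) / q := by push_cast; rfl
  rw [h2] at h1
  exact_mod_cast h1

theorem div_inj {q : ℕ} (hq : 0 < q) : Function.Injective fun a : ℕ => (a : ℚ) / q := by
  intro a b hab
  have hq' : (q : ℚ) ≠ 0 := by exact_mod_cast hq.ne'
  have h : (a : ℚ) / q = (b : ℚ) / q := hab
  have h2 := (div_left_inj' hq').1 h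
  exact_mod_cast h2

/-- every rational in `(0,1]` is `a / q` -/
theorem exists_fr {f : ℚ} (h0 : 0 < f) (h1 : f ≤ 1) :
    ∃ a ∈ fr f.den, (a : ℚ) / f.den = f := by
  have hn : 0 < f.num := Rat.num_pos.2 h0
  obtain ⟨a, ha⟩ : ∃ a : ℕ, f.num = a := ⟨f.num.toNat, (Int.toNat_of_nonneg hn.le).symm⟩
  have hd : (0 : ℚ) < f.den := by exact_mod_cast f.pos
  have e : (a : ℚ) / f.den = f := by
    have := Rat.num_div_den f
    rw [ha, Int.cast_natCast] at this
    exact this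
  refine ⟨a, mem_fr.2 ⟨⟨?_, ?_⟩, ?_⟩, e⟩
  · have : (0 : ℤ) < a := by rw [← ha]; exact hn
    exact_mod_cast this
  · rw [← e, div_le_one hd] at h1
    exact_mod_cast h1
  · have := f.reduced
    rw [ha] at this
    simpa using this

/-- grouping the fractions `a / n` by their denominators -/
theorem sum_div (g : ℚ → ℝ) {n : ℕ} (hn : 0 < n) :
    ∑ d ∈ n.divisors, ∑ a ∈ fr d, g ((a : ℚ) / d) = ∑ a ∈ Icc 1 n, g ((a : ℚ) / n) := by
  have e : (Icc 1 n).image (fun a : ℕ => (a : ℚ) / n) =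
      n.divisors.biUnion fun d => (fr d).image fun a : ℕ => (a : ℚ) / d := by
    ext f
    simp only [mem_image, mem_biUnion, mem_Icc]
    constructor
    · rintro ⟨a, ⟨h1, h2⟩, rfl⟩
      have hn' : (0 : ℚ) < n := by exact_mod_cast hn
      have ha' : (0 : ℚ) < a := by exact_mod_cast h1
      obtain ⟨b, hb, hb'⟩ := exists_fr (f := (a : ℚ) / n) (by positivity)
        (by rw [div_le_one hn']; exact_mod_cast h2)
      refine ⟨((a : ℚ) / n).den, ?_, b, hb, hb'⟩
      rw [Nat.mem_divisors]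
      refine ⟨?_, hn.ne'⟩
      have := Rat.den_dvd (a : ℤ) (n : ℤ)
      rw [Rat.divInt_eq_div] at this
      push_cast at this
      exact_mod_cast this
    · rintro ⟨d, hd, b, hb, rfl⟩
      rw [Nat.mem_divisors] at hd
      obtain ⟨⟨k, rfl⟩, -⟩ := hd
      obtain ⟨⟨b1, b2⟩, b3⟩ := mem_fr.1 hb
      have hk : 0 < k := Nat.pos_of_ne_zero (by rintro rfl; simp at hn)
      have hd0 : 0 < d := Nat.pos_of_ne_zero (by rintro rfl; simp at hn)
      refine ⟨b * k, ⟨Nat.mul_pos b1 hk, Nat.mul_le_mul_right k b2⟩, ?_⟩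
      have hk' : (k : ℚ) ≠ 0 := by exact_mod_cast hk.ne'
      push_cast
      exact mul_div_mul_right _ _ hk'
  have h1 : ∑ a ∈ Icc 1 n, g ((a : ℚ) / n) =
      ∑ f ∈ (Icc 1 n).image (fun a : ℕ => (a : ℚ) / n), g f := by
    rw [sum_image]
    intro a _ b _ hab
    exact div_inj hn hab
  rw [h1, e, sum_biUnion]
  · apply sum_congr rfl
    intro d hd
    have hd0 : 0 < d := Nat.pos_of_mem_divisors hd
    rw [sum_image]
    intro a _ b _ hab
    exact div_inj hd0 hab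
  · intro d hd d' hd' hne
    have hd0 : 0 < d := Nat.pos_of_mem_divisors hd
    have hd0' : 0 < d' := Nat.pos_of_mem_divisors hd'
    show Disjoint _ _
    rw [disjoint_left]
    rintro f hf hf'
    simp only [mem_image] at hf hf'
    obtain ⟨a, ha, rfl⟩ := hf
    obtain ⟨b, hb, hb'⟩ := hf'
    apply hne
    rw [← den_div hd0 (mem_fr.1 ha).2, ← den_div hd0' (mem_fr.1 hb).2, hb']

theorem sum_range_cast (n : ℕ) : ∑ k ∈ range n, (k : ℝ) = n * (n - 1) / 2 := by
  induction n with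
  | zero => simp
  | succ n ih =>
    rw [sum_range_succ, ih]
    push_cast
    ring

theorem sum_range_sq (n : ℕ) : ∑ k ∈ range n, (k : ℝ) ^ 2 = n * (n - 1) * (2 * n - 1) / 6 := by
  induction n with
  | zero => simp
  | succ n ih =>
    rw [sum_range_succ, ih]
    push_cast
    ring

/-- `u x = x (1 - x)` -/
noncomputable def u (x : ℝ) : ℝ := x * (1 - x)

theorem sum_Icc_u {n : ℕ} (hn : 0 < n) :
    ∑ a ∈ Icc 1 n, u ((a : ℝ) / n) = (n : ℝ) / 6 - 1 / (6 * n) := by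
  have hn' : (n : ℝ) ≠ 0 := by exact_mod_cast hn.ne'
  have h1 : ∑ a ∈ Icc 1 n, u ((a : ℝ) / n) = ∑ a ∈ range (n + 1), u ((a : ℝ) / n) := by
    have e : range (n + 1) = insert 0 (Icc 1 n) := by
      ext x
      simp only [mem_range, mem_insert, mem_Icc]
      omega
    rw [e, sum_insert (by simp)]
    simp [u]
  have h2 : ∀ a : ℕ, u ((a : ℝ) / n) = (1 / n : ℝ) * a - (1 / n ^ 2 : ℝ) * (a : ℝ) ^ 2 := by
    intro a
    unfold u
    field_simp
  rw [h1, sum_congr rfl fun a _ => h2 a, sum_sub_distrib, ← mul_sum, ← mul_sum, sum_range_cast,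
    sum_range_sq]
  push_cast
  field_simp
  ring

/-- `∑_{d ∣ n} μ(d) d = ∏_{r ∣ n} (1 - r)` -/
theorem sum_mu_id {n : ℕ} (hn : n ≠ 0) :
    ∑ d ∈ n.divisors, (μ d : ℝ) * d = ∏ r ∈ n.primeFactors, (1 - (r : ℝ)) := by
  set A : ArithmeticFunction ℝ := (pmul (μ : ArithmeticFunction ℝ)
    ((ArithmeticFunction.id : ArithmeticFunction ℕ) : ArithmeticFunction ℝ)) * (ζ : ArithmeticFunction ℝ) with hA
  have hAm : A.IsMultiplicative :=
    (isMultiplicative_moebius.intCast.pmul isMultiplicative_id.natCast).mul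
      isMultiplicative_zeta.natCast
  have hAn : ∀ n : ℕ, A n = ∑ d ∈ n.divisors, (μ d : ℝ) * d := by
    intro n
    rw [hA, coe_mul_zeta_apply]
    apply sum_congr rfl
    intro d _
    simp [pmul_apply]
  rw [← hAn]
  induction n using Nat.recOnPosPrimePosCoprime with
  | prime_pow p k hp hk =>
    rw [hAn, Nat.sum_divisors_prime_pow hp, Nat.primeFactors_prime_pow hk.ne' hp, prod_singleton]
    obtain ⟨k, rfl⟩ : ∃ j, k = j + 1 := ⟨k - 1, by omega⟩
    rw [sum_range_succ', sum_range_succ']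
    have h0 : ∀ i ∈ range k, ((μ (p ^ (i + 1 + 1)) : ℤ) : ℝ) * ((p ^ (i + 1 + 1) : ℕ) : ℝ) = 0 := by
      intro i _
      rw [moebius_apply_prime_pow hp (by omega)]
      simp
    rw [sum_eq_zero h0]
    simp [moebius_apply_prime hp]
    ring
  | zero => exact absurd rfl hn
  | one => simp [hAn]
  | coprime a b ha hb hab ih1 ih2 =>
    rw [hAm.map_mul_of_coprime hab, ih1 (by omega), ih2 (by omega),
      hab.primeFactors_mul, prod_union hab.disjoint_primeFactors]

/-- the coefficients: `(1/q) ∏_{r ∣ q} (1 - r)` -/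
noncomputable def gg (q : ℕ) : ℝ := (∏ r ∈ q.primeFactors, (1 - (r : ℝ))) / q

theorem gg_eq {n : ℕ} (hn : 0 < n) :
    ∑ x ∈ n.divisorsAntidiagonal, (μ x.1 : ℝ) * (1 / x.2) = gg n := by
  unfold gg
  rw [← sum_mu_id hn.ne', Nat.sum_divisorsAntidiagonal (fun a b => (μ a : ℝ) * (1 / (b : ℝ))),
    Finset.sum_div]
  apply sum_congr rfl
  intro d hd
  have hd0 : (d : ℝ) ≠ 0 := by exact_mod_cast (Nat.pos_of_mem_divisors hd).ne'
  have hn0 : (n : ℝ) ≠ 0 := by exact_mod_cast hn.ne'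
  rw [Nat.cast_div (Nat.dvd_of_mem_divisors hd) hd0]
  field_simp

/-- `∑_{a coprime to n} (a/n)(1 - a/n) = (φ(n) - g(n)) / 6` -/
theorem sum_fr_u {n : ℕ} (hn : 0 < n) :
    ∑ a ∈ fr n, u ((a : ℝ) / n) = ((n.totient : ℝ) - gg n) / 6 := by
  have h1 : ∀ n > 0, ∑ d ∈ n.divisors, (∑ a ∈ fr d, u ((a : ℝ) / d)) =
      (fun n : ℕ => (n : ℝ) / 6 - 1 / (6 * n)) n := by
    intro n hn
    have h := sum_div (fun f : ℚ => u (f : ℝ)) hn
    push_cast at h
    rw [h, sum_Icc_u hn]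
  have h2 := (sum_eq_iff_sum_mul_moebius_eq.1 h1) n hn
  have h3 : ∀ n > 0, ∑ d ∈ n.divisors, ((d.totient : ℕ) : ℝ) = (fun n : ℕ => (n : ℝ)) n := by
    intro n _
    rw [← Nat.cast_sum, Nat.sum_totient]
  have h4 := (sum_eq_iff_sum_mul_moebius_eq.1 h3) n hn
  rw [← h2, ← h4, ← gg_eq hn, ← sum_sub_distrib, Finset.sum_div]
  apply sum_congr rfl
  intro x _
  have : (1 : ℝ) / (6 * (x.2 : ℝ)) = 1 / x.2 / 6 := by rw [div_div, mul_comm]
  rw [this]
  ring

theorem gg_sum (N : ℕ) : ∑ q ∈ Icc 1 N, gg q =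
    ∑ d ∈ Icc 1 N, ((∑ k ∈ Icc 1 (N / d), μ k : ℤ) : ℝ) / d := by
  set I : ArithmeticFunction ℝ := ⟨fun n => 1 / (n : ℝ), by simp⟩ with hI
  have e : ∀ n : ℕ, Icc 1 n = Ioc 0 n := by
    intro n
    ext x
    simp only [mem_Icc, mem_Ioc]
    omega
  have h := sum_Ioc_mul_eq_sum_sum I (μ : ArithmeticFunction ℝ) N
  have h1 : ∀ q ∈ Icc 1 N, gg q = (I * (μ : ArithmeticFunction ℝ)) q := by
    intro q hq
    rw [mul_comm, mul_apply, ← gg_eq (mem_Icc.1 hq).1]
    rfl
  rw [sum_congr rfl h1, e, h]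
  apply sum_congr rfl
  intro d _
  rw [e]
  push_cast
  show 1 / (d : ℝ) * _ = _
  rw [one_div, mul_comm, ← div_eq_mul_inv]
  congr 1

/-! ### the permutation `a ↦ p a` -/

theorem sum_fr_eq {q : ℕ} (hq : 0 < q) {h : ℕ → ℝ} (h0 : h 0 = h q) :
    ∑ a ∈ fr q, h a = ∑ a ∈ (range q).filter fun a => a.Coprime q, h a := by
  rcases Nat.lt_or_ge 1 q with h1 | h1
  · apply sum_congr _ fun _ _ => rfl
    ext a
    simp only [fr, mem_filter, mem_Icc, mem_range]
    constructor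
    · rintro ⟨⟨a1, a2⟩, a3⟩
      refine ⟨lt_of_le_of_ne a2 ?_, a3⟩
      rintro rfl
      rw [Nat.coprime_self] at a3
      omega
    · rintro ⟨a1, a2⟩
      refine ⟨⟨?_, a1.le⟩, a2⟩
      rcases Nat.eq_zero_or_pos a with rfl | h
      · rw [Nat.coprime_zero_left] at a2
        omega
      · exact h
  · obtain rfl : q = 1 := by omega
    have e1 : fr 1 = {1} := by decide
    have e2 : ((range 1).filter fun a => a.Coprime 1) = {0} := by decide
    rw [e1, e2, sum_singleton, sum_singleton, h0]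

theorem sum_perm {p q : ℕ} (hq : 0 < q) (hpq : p.Coprime q) (h : ℕ → ℝ) (h0 : h 0 = h q) :
    ∑ a ∈ fr q, h (p * a % q) = ∑ a ∈ fr q, h a := by
  rw [sum_fr_eq hq h0, sum_fr_eq hq (h := fun a => h (p * a % q)) (by simp)]
  set s := (range q).filter fun a => a.Coprime q with hs
  have hmap : ∀ a ∈ s, p * a % q ∈ s := by
    intro a ha
    rw [hs, mem_filter, mem_range] at ha ⊢
    refine ⟨Nat.mod_lt _ hq, ?_⟩
    have : (p * a).Coprime q := Nat.Coprime.mul_left hpq ha.2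
    rw [Nat.Coprime, ← Nat.gcd_rec]
    exact this.symm
  have hinj : Set.InjOn (fun a => p * a % q) s := by
    intro a ha b hb hab
    have ha' := (mem_filter.1 (Finset.mem_coe.1 ha)).1
    have hb' := (mem_filter.1 (Finset.mem_coe.1 hb)).1
    rw [mem_range] at ha' hb'
    have h1 : p * a ≡ p * b [MOD q] := hab
    have h2 : a ≡ b [MOD q] := Nat.ModEq.cancel_left_of_coprime (by rwa [Nat.gcd_comm]) h1
    have h3 := h2
    unfold Nat.ModEq at h3
    rwa [Nat.mod_eq_of_lt ha', Nat.mod_eq_of_lt hb'] at h3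
  apply sum_nbij (fun a => p * a % q) hmap hinj _ fun _ _ => rfl
  exact surjOn_of_injOn_of_card_le _ hmap hinj le_rfl

end Pool.Agent.Lib_helper51.FA
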