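import Mathlib

/-!
# The prime step of the `L²` discrepancy of the Farey fractions: definitions
-/

set_option autoImplicit false

namespace Pool.Agent.Lib_helper51.FA

open Finset

/-- `F_N`: the rationals in `(0,1]` with denominator at most `N` -/
def farey (N : ℕ) : Set ℚ := {f | 0 < f ∧ f ≤ 1 ∧ f.den ≤ N}

/-- `D_N(x) = #{f ∈ F_N : f ≤ x} - |F_N| x` -/
noncomputable def discr (N : ℕ) (x : ℝ) : ℝ :=
  ({f | f ∈ farey N ∧ (f : ℝ) ≤ x}.ncard : ℝ) - (farey N).ncard * x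

/-- `W(N) = ∫_0^1 D_N(x)² dx` -/
noncomputable def W (N : ℕ) : ℝ := ∫ x in (0 : ℝ)..1, discr N x ^ 2

/-- `ΔW(p) = W(p-1) - W(p)` -/
noncomputable def DeltaW (p : ℕ) : ℝ := W (p - 1) - W p

/-- the Mertens function -/
noncomputable def Mertens (n : ℕ) : ℤ := ∑ k ∈ Icc 1 n, ArithmeticFunction.moebius k

/-- `S(N) = ∑_{q ≤ N} (1/q) ∏_{r ∣ q, r prime} (1 - r)` -/
noncomputable def S (N : ℕ) : ℝ := ∑ q ∈ Icc 1 N, (∏ r ∈ q.primeFactors, (1 - (r : ℝ))) / q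

end Pool.Agent.Lib_helper51.FA
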