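import Pool.Agent.Lib_helper51.FA.Arith
import Pool.Agent.Lib_helper51.FA.Defs

/-!
# The prime step of the `L²` discrepancy of the Farey fractions
-/

set_option autoImplicit false

namespace Pool.Agent.Lib_helper51.FA

open Finset MeasureTheory

/-! ### finite form of the Farey set -/

def FF (N : ℕ) : Finset ℚ :=
  (Icc 1 N).biUnion fun q => (fr q).image fun a : ℕ => (a : ℚ) / q

theorem mem_FF {N : ℕ} {f : ℚ} : f ∈ FF N ↔ f ∈ farey N := by
  unfold FF farey
  simp only [mem_biUnion, mem_image, mem_Icc, Set.mem_ofPred_eq]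
  constructor
  · rintro ⟨q, ⟨h1, h2⟩, a, ha, rfl⟩
    obtain ⟨⟨a1, a2⟩, a3⟩ := mem_fr.1 ha
    have hq : (0 : ℚ) < q := by exact_mod_cast h1
    have ha : (0 : ℚ) < a := by exact_mod_cast a1
    refine ⟨by positivity, ?_, ?_⟩
    · rw [div_le_one hq]
      exact_mod_cast a2
    · rw [den_div h1 a3]
      exact h2
  · rintro ⟨h0, h1, h2⟩
    obtain ⟨a, ha, e⟩ := exists_fr h0 h1
    exact ⟨f.den, ⟨f.pos, h2⟩, a, ha, e⟩

theorem sum_FF (g : ℚ → ℝ) (N : ℕ) :
    ∑ f ∈ FF N, g f = ∑ q ∈ Icc 1 N, ∑ a ∈ fr q, g ((a : ℚ) / q) := by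
  unfold FF
  rw [sum_biUnion]
  · apply sum_congr rfl
    intro q hq
    rw [sum_image]
    intro a _ b _ hab
    exact div_inj (mem_Icc.1 hq).1 hab
  · intro d hd d' hd' hne
    have hd0 : 0 < d := (mem_Icc.1 (Finset.mem_coe.1 hd)).1
    have hd0' : 0 < d' := (mem_Icc.1 (Finset.mem_coe.1 hd')).1
    show Disjoint _ _
    rw [disjoint_left]
    rintro f hf hf'
    simp only [mem_image] at hf hf'
    obtain ⟨a, ha, rfl⟩ := hf
    obtain ⟨b, hb, hb'⟩ := hf'
    apply hne
    rw [← den_div hd0 (mem_fr.1 ha).2, ← den_div hd0' (mem_fr.1 hb).2, hb']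

/-- the step function -/
noncomputable def st (f x : ℝ) : ℝ := (Set.Ici f).indicator (fun _ => (1 : ℝ)) x

theorem discr_eq (N : ℕ) (x : ℝ) : discr N x = ∑ f ∈ FF N, (st (f : ℝ) x - x) := by
  have e1 : {f | f ∈ farey N ∧ (f : ℝ) ≤ x} = ((FF N).filter fun f : ℚ => (f : ℝ) ≤ x : Finset ℚ) := by
    ext f
    simp [mem_FF]
  have e2 : farey N = (FF N : Set ℚ) := by
    ext f
    simp [mem_FF]
  unfold discr
  rw [e1, e2, Set.ncard_coe_finset, Set.ncard_coe_finset, sum_sub_distrib, sum_const,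
    nsmul_eq_mul, card_filter]
  congr 1
  push_cast
  apply sum_congr rfl
  intro f _
  unfold st
  by_cases h : (f : ℝ) ≤ x
  · rw [if_pos h, Set.indicator_of_mem (Set.mem_Ici.2 h)]
  · rw [if_neg h, Set.indicator_of_notMem (by simpa using h)]

/-! ### the integrals -/

theorem st_int {m : ℝ} (h0 : 0 ≤ m) (h1 : m ≤ 1) {h : ℝ → ℝ} (hc : Continuous h) :
    IntervalIntegrable (fun x => st m x * h x) volume 0 1 ∧
    ∫ x in (0 : ℝ)..1, st m x * h x = ∫ x in m..1, h x := by
  have e : (fun x => st m x * h x) = (Set.Ici m).indicator h := by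
    funext x
    unfold st
    by_cases hx : x ∈ Set.Ici m
    · rw [Set.indicator_of_mem hx, Set.indicator_of_mem hx, one_mul]
    · rw [Set.indicator_of_notMem hx, Set.indicator_of_notMem hx, zero_mul]
  have hi : IntegrableOn h (Set.Ioc 0 1) := (hc.intervalIntegrable 0 1).1
  rw [e]
  constructor
  · rw [intervalIntegrable_iff_integrableOn_Ioc_of_le zero_le_one]
    exact hi.indicator measurableSet_Ici
  · rw [intervalIntegral.integral_of_le zero_le_one, intervalIntegral.integral_of_le h1,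
      setIntegral_indicator measurableSet_Ici]
    rcases eq_or_lt_of_le h0 with rfl | h0
    · congr 1
      congr 1
      ext x
      simp only [Set.mem_inter_iff, Set.mem_Ioc, Set.mem_Ici]
      constructor
      · rintro ⟨h, -⟩
        exact h
      · rintro h
        exact ⟨h, h.1.le⟩
    · rw [← integral_Icc_eq_integral_Ioc]
      congr 1
      congr 1
      ext x
      simp only [Set.mem_inter_iff, Set.mem_Ioc, Set.mem_Ici, Set.mem_Icc]
      constructor
      · rintro ⟨⟨-, h2⟩, h3⟩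
        exact ⟨h3, h2⟩
      · rintro ⟨h3, h2⟩
        exact ⟨⟨lt_of_lt_of_le h0 h3, h2⟩, h3⟩

/-- the kernel -/
noncomputable def K (f g : ℝ) : ℝ := 1 / 3 + (f ^ 2 + g ^ 2) / 2 - max f g

theorem st_mul (f g x : ℝ) : st f x * st g x = st (max f g) x := by
  unfold st
  by_cases h1 : f ≤ x <;> by_cases h2 : g ≤ x <;> simp [Set.indicator, h1, h2]

theorem prod_int {f g : ℝ} (f0 : 0 ≤ f) (f1 : f ≤ 1) (g0 : 0 ≤ g) (g1 : g ≤ 1) :
    IntervalIntegrable (fun x => (st f x - x) * (st g x - x)) volume 0 1 ∧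
    ∫ x in (0 : ℝ)..1, (st f x - x) * (st g x - x) = K f g := by
  have e : (fun x => (st f x - x) * (st g x - x)) =
      fun x => ((st (max f g) x * 1 - st f x * x) - st g x * x) + x ^ 2 := by
    funext x
    rw [← st_mul]
    ring
  obtain ⟨a1, a2⟩ := st_int (m := max f g) (le_max_of_le_left f0) (max_le f1 g1)
    (h := fun _ => 1) continuous_const
  obtain ⟨b1, b2⟩ := st_int f0 f1 (h := fun x => x) continuous_id
  obtain ⟨c1, c2⟩ := st_int g0 g1 (h := fun x => x) continuous_id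
  have d1 : IntervalIntegrable (fun x : ℝ => x ^ 2) volume 0 1 :=
    (continuous_pow 2).intervalIntegrable 0 1
  rw [e]
  constructor
  · exact ((a1.sub b1).sub c1).add d1
  · rw [intervalIntegral.integral_add ((a1.sub b1).sub c1) d1,
      intervalIntegral.integral_sub (a1.sub b1) c1, intervalIntegral.integral_sub a1 b1,
      a2, b2, c2, integral_id, integral_id, integral_pow, intervalIntegral.integral_const]
    unfold K
    simp
    ring

theorem FF_mem01 {N : ℕ} {f : ℚ} (h : f ∈ FF N) : (0 : ℝ) ≤ f ∧ (f : ℝ) ≤ 1 := by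
  obtain ⟨h0, h1, -⟩ := mem_FF.1 h
  exact ⟨by exact_mod_cast h0.le, by exact_mod_cast h1⟩

theorem W_eq (N : ℕ) : W N = ∑ f ∈ FF N, ∑ g ∈ FF N, K f g := by
  unfold W
  have e : ∀ x : ℝ, discr N x ^ 2 = ∑ f ∈ FF N, ∑ g ∈ FF N, (st f x - x) * (st g x - x) := by
    intro x
    rw [discr_eq, sq, sum_mul_sum]
  simp_rw [e]
  rw [intervalIntegral.integral_finsetSum]
  · apply sum_congr rfl
    intro f hf
    rw [intervalIntegral.integral_finsetSum]
    · apply sum_congr rfl
      intro g hg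
      exact (prod_int (FF_mem01 hf).1 (FF_mem01 hf).2 (FF_mem01 hg).1 (FF_mem01 hg).2).2
    · intro g hg
      exact (prod_int (FF_mem01 hf).1 (FF_mem01 hf).2 (FF_mem01 hg).1 (FF_mem01 hg).2).1
  · intro f hf
    have := IntervalIntegrable.sum (μ := volume) (a := (0 : ℝ)) (b := 1) (FF N)
      (f := fun g x => (st f x - x) * (st g x - x)) fun g hg =>
        (prod_int (FF_mem01 hf).1 (FF_mem01 hf).2 (FF_mem01 hg).1 (FF_mem01 hg).2).1
    have e2 : (fun x : ℝ => ∑ g ∈ FF N, (st (f : ℝ) x - x) * (st (g : ℝ) x - x)) =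
        ∑ g ∈ FF N, fun x : ℝ => (st (f : ℝ) x - x) * (st (g : ℝ) x - x) := by
      funext x
      rw [Finset.sum_apply]
    rw [e2]
    exact this

/-! ### the sum over the new fractions -/

theorem K_comm (f g : ℝ) : K f g = K g f := by
  unfold K
  rw [max_comm]
  ring

theorem fr_prime {p : ℕ} (hp : p.Prime) : fr p = Icc 1 (p - 1) := by
  ext a
  rw [mem_fr, mem_Icc]
  have h2 := hp.two_le
  constructor
  · rintro ⟨⟨a1, a2⟩, a3⟩
    refine ⟨a1, ?_⟩
    rcases Nat.lt_or_ge a p with h | h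
    · omega
    · obtain rfl : a = p := by omega
      rw [Nat.coprime_self] at a3
      omega
  · rintro ⟨a1, a2⟩
    refine ⟨⟨a1, by omega⟩, ?_⟩
    exact (Nat.coprime_of_lt_prime (by omega) (by omega) hp).symm

/-- `∑_{k<p} K(f, k/p)` -/
theorem sum_K {p : ℕ} (hp : p.Prime) {f : ℝ} (f0 : 0 ≤ f) (f1 : f ≤ 1) :
    ∑ k ∈ fr p, K f ((k : ℝ) / p) =
      u f / 2 - u (Int.fract (p * f)) / (2 * p) - (p - 1) / (12 * p) := by
  have hp0 : (0 : ℝ) < p := by exact_mod_cast hp.pos
  have e0 : fr p = (range p).erase 0 := by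
    rw [fr_prime hp]
    ext a
    simp only [mem_Icc, mem_erase, mem_range]
    have := hp.two_le
    omega
  have hmem : 0 ∈ range p := mem_range.2 hp.pos
  have e1 : ∑ k ∈ fr p, K f ((k : ℝ) / p) = ∑ k ∈ range p, K f ((k : ℝ) / p) - K f 0 := by
    rw [e0, ← sum_erase_add _ _ hmem]
    simp
  have eK0 : K f 0 = 1 / 3 + f ^ 2 / 2 - f := by
    unfold K
    rw [max_eq_left f0]
    ring
  -- the sum of the maxima
  set j : ℕ := ⌊(p : ℝ) * f⌋₊ with hj
  have hpf : 0 ≤ (p : ℝ) * f := by positivity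
  have hjle : (j : ℝ) ≤ p * f := Nat.floor_le hpf
  have hjlt : (p : ℝ) * f < j + 1 := Nat.lt_floor_add_one _
  have hfr : Int.fract ((p : ℝ) * f) = p * f - j := by
    rw [Int.fract, ← natCast_floor_eq_intCast_floor hpf]
  have hmax : ∑ k ∈ range p, max f ((k : ℝ) / p) =
      ((j : ℝ) + 1) * f + (p * (p - 1) / 2 - (j + 1) * j / 2) / p := by
    have key : ∀ k : ℕ, (k : ℝ) / p ≤ f ↔ k ≤ j := by
      intro k
      rw [div_le_iff₀ hp0, mul_comm f, hj, Nat.le_floor_iff hpf]
    rcases Nat.lt_or_ge j p with h | h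
    · rw [← sum_range_add_sum_Ico _ (show j + 1 ≤ p by omega)]
      have s1 : ∑ k ∈ range (j + 1), max f ((k : ℝ) / p) = ((j : ℝ) + 1) * f := by
        rw [sum_congr rfl (g := fun _ => f)]
        · rw [sum_const, card_range, nsmul_eq_mul]
          push_cast
          rfl
        · intro k hk
          rw [mem_range] at hk
          exact max_eq_left ((key k).2 (by omega))
      have s2 : ∑ k ∈ Ico (j + 1) p, max f ((k : ℝ) / p) =
          (p * (p - 1) / 2 - (j + 1) * j / 2) / p := by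
        rw [sum_congr rfl (g := fun k : ℕ => (k : ℝ) / p)]
        · rw [sum_Ico_eq_sub _ (show j + 1 ≤ p by omega), ← Finset.sum_div, ← Finset.sum_div,
            sum_range_cast, sum_range_cast]
          push_cast
          ring
        · intro k hk
          rw [mem_Ico] at hk
          apply max_eq_right
          by_contra hc
          have := (key k).1 (not_le.1 hc).le
          omega
      rw [s1, s2]
    · have hfe : f = 1 := by
        have h3 : (p : ℝ) ≤ j := by exact_mod_cast h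
        have h4 : (p : ℝ) * 1 ≤ p * f := by linarith
        exact le_antisymm f1 (le_of_mul_le_mul_left h4 hp0)
      have hje : j = p := by
        rw [hj, hfe, mul_one, Nat.floor_natCast]
      rw [hje, hfe]
      rw [sum_congr rfl (g := fun _ => (1 : ℝ))]
      · rw [sum_const, card_range, nsmul_eq_mul]
        field_simp
        ring
      · intro k hk
        rw [mem_range] at hk
        apply max_eq_left
        rw [div_le_one hp0]
        exact_mod_cast hk.le
  have eS : ∑ k ∈ range p, K f ((k : ℝ) / p) = p * (1 / 3 + f ^ 2 / 2) +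
      (p * (p - 1) * (2 * p - 1) / 6) / p ^ 2 / 2 -
      (((j : ℝ) + 1) * f + (p * (p - 1) / 2 - (j + 1) * j / 2) / p) := by
    rw [← hmax]
    have e3 : ∀ k : ℕ, K f ((k : ℝ) / p) = (1 / 3 + f ^ 2 / 2) + (k : ℝ) ^ 2 * (1 / p ^ 2 / 2) -
        max f ((k : ℝ) / p) := by
      intro k
      unfold K
      field_simp
      ring
    rw [sum_congr rfl fun k _ => e3 k, sum_sub_distrib, sum_add_distrib, sum_const, card_range,
      nsmul_eq_mul, ← sum_mul, sum_range_sq]
    ring
  rw [e1, eS, eK0, hfr]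
  unfold u
  field_simp
  ring

/-! ### the step -/

/-- the contribution of the denominators `q`, `q'` -/
noncomputable def B (q q' : ℕ) : ℝ :=
  ∑ a ∈ fr q, ∑ b ∈ fr q', K ((a : ℝ) / q) ((b : ℝ) / q')

theorem B_comm (q q' : ℕ) : B q q' = B q' q := by
  unfold B
  rw [sum_comm]
  exact sum_congr rfl fun a _ => sum_congr rfl fun b _ => K_comm _ _

theorem W_B (N : ℕ) : W N = ∑ q ∈ Icc 1 N, ∑ q' ∈ Icc 1 N, B q q' := by
  have h1 : ∀ f : ℚ, ∑ g ∈ FF N, K (f : ℝ) (g : ℝ) =
      ∑ q' ∈ Icc 1 N, ∑ b ∈ fr q', K (f : ℝ) (((b : ℚ) / q' : ℚ) : ℝ) := fun f =>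
    sum_FF (fun g => K (f : ℝ) (g : ℝ)) N
  rw [W_eq, sum_congr rfl fun f _ => h1 f,
    sum_FF (fun f => ∑ q' ∈ Icc 1 N, ∑ b ∈ fr q', K (f : ℝ) (((b : ℚ) / q' : ℚ) : ℝ)) N]
  apply sum_congr rfl
  intro q _
  rw [sum_comm]
  apply sum_congr rfl
  intro q' _
  unfold B
  push_cast
  rfl

theorem W_step {p : ℕ} (hp : p.Prime) :
    W p = W (p - 1) + 2 * ∑ q ∈ Icc 1 (p - 1), B q p + B p p := by
  have e : Icc 1 p = insert p (Icc 1 (p - 1)) := by
    ext x
    have := hp.two_le
    simp only [mem_insert, mem_Icc]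
    omega
  have hn : p ∉ Icc 1 (p - 1) := by
    have := hp.two_le
    simp only [mem_Icc]
    omega
  have e1 : ∀ q : ℕ, ∑ q' ∈ Icc 1 p, B q q' = B q p + ∑ q' ∈ Icc 1 (p - 1), B q q' := by
    intro q
    rw [e, sum_insert hn]
  have e2 : ∑ q' ∈ Icc 1 (p - 1), B p q' = ∑ q' ∈ Icc 1 (p - 1), B q' p :=
    sum_congr rfl fun q' _ => B_comm p q'
  rw [W_B, W_B, sum_congr rfl fun q _ => e1 q, sum_add_distrib]
  rw [e, sum_insert hn, sum_insert hn, e2]
  ring

theorem u_zero : u 0 = 0 := by simp [u]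

theorem u_one : u 1 = 0 := by simp [u]

theorem card_fr (q : ℕ) (hq : 0 < q) : (fr q).card = q.totient := by
  have h := sum_fr_eq hq (h := fun _ => (1 : ℝ)) rfl
  rw [sum_const, sum_const, nsmul_eq_mul, nsmul_eq_mul, mul_one, mul_one] at h
  have h2 : (fr q).card = ((range q).filter fun a => a.Coprime q).card := by exact_mod_cast h
  rw [h2, Nat.totient_eq_card_coprime]
  congr 1
  ext a
  simp only [mem_filter, Nat.coprime_comm]

theorem B_eq {p q : ℕ} (hp : p.Prime) (hq : 0 < q) :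
    B q p = ((q.totient : ℝ) - gg q) / 12 - (∑ a ∈ fr q, u (((p * a % q : ℕ) : ℝ) / q)) / (2 * p) -
      q.totient * ((p - 1) / (12 * p)) := by
  have hq0 : (0 : ℝ) < q := by exact_mod_cast hq
  unfold B
  have h1 : ∀ a ∈ fr q, ∑ b ∈ fr p, K ((a : ℝ) / q) ((b : ℝ) / p) =
      u ((a : ℝ) / q) / 2 - u (((p * a % q : ℕ) : ℝ) / q) / (2 * p) - (p - 1) / (12 * p) := by
    intro a ha
    obtain ⟨⟨a1, a2⟩, -⟩ := mem_fr.1 ha
    rw [sum_K hp (by positivity) (by rw [div_le_one hq0]; exact_mod_cast a2)]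
    have e : Int.fract ((p : ℝ) * ((a : ℝ) / q)) = ((p * a % q : ℕ) : ℝ) / q := by
      rw [← Int.fract_div_natCast_eq_div_natCast_mod]
      push_cast
      rw [mul_div_assoc]
    rw [e]
  rw [sum_congr rfl h1, sum_sub_distrib, sum_sub_distrib, ← Finset.sum_div, ← Finset.sum_div,
    sum_fr_u hq, sum_const, card_fr q hq, nsmul_eq_mul]
  ring

theorem B_lt {p q : ℕ} (hp : p.Prime) (hq : 0 < q) (hqp : q < p) :
    B q p = -((p - 1) / (12 * p)) * gg q := by
  have hp0 : (p : ℝ) ≠ 0 := by exact_mod_cast hp.ne_zero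
  have hq0 : (q : ℝ) ≠ 0 := by exact_mod_cast hq.ne'
  rw [B_eq hp hq]
  have hc : p.Coprime q := Nat.coprime_of_lt_prime (by omega) hqp hp
  have h2 := sum_perm hq hc (fun a => u ((a : ℝ) / q)) (by simp [u, div_self hq0])
  rw [h2, sum_fr_u hq]
  field_simp
  ring

theorem gg_prime {p : ℕ} (hp : p.Prime) : gg p = (1 - p) / p := by
  unfold gg
  rw [hp.primeFactors, prod_singleton]

theorem B_self {p : ℕ} (hp : p.Prime) : B p p = (p - 1) / (6 * p) := by
  have hp0 : (p : ℝ) ≠ 0 := by exact_mod_cast hp.ne_zero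
  rw [B_eq hp hp.pos]
  have h1 : ∑ a ∈ fr p, u (((p * a % p : ℕ) : ℝ) / p) = 0 := by
    apply sum_eq_zero
    intro a _
    rw [Nat.mul_mod_right]
    simp [u]
  rw [h1, gg_prime hp, Nat.totient_prime hp, Nat.cast_sub hp.one_le]
  push_cast
  field_simp
  ring

theorem S_eq (N : ℕ) : S N = ∑ q ∈ Icc 1 N, gg q := rfl

/-- the exact formula -/
theorem DeltaW_eq {p : ℕ} (hp : p.Prime) :
    DeltaW p = (p - 1) / (6 * p) * (S (p - 1) - 1) := by
  have hp0 : (p : ℝ) ≠ 0 := by exact_mod_cast hp.ne_zero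
  unfold DeltaW
  rw [W_step hp, B_self hp, S_eq]
  have h : ∑ q ∈ Icc 1 (p - 1), B q p = -((p - 1) / (12 * p)) * ∑ q ∈ Icc 1 (p - 1), gg q := by
    rw [mul_sum]
    apply sum_congr rfl
    intro q hq
    rw [mem_Icc] at hq
    exact B_lt hp (by omega) (by have := hp.two_le; omega)
  rw [h]
  field_simp
  ring

theorem DeltaW_pos_iff {p : ℕ} (hp : p.Prime) : 0 < DeltaW p ↔ 1 < S (p - 1) := by
  have h1 : (1 : ℝ) < p := by exact_mod_cast hp.one_lt
  have h2 : (0 : ℝ) < (p - 1) / (6 * p) := by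
    apply div_pos (by linarith) (by positivity)
  rw [DeltaW_eq hp, mul_pos_iff_of_pos_left h2, sub_pos]

end Pool.Agent.Lib_helper51.FA
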