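import Pool.Agent.Lib_helper51.FA.Step

/-!
# `S N ≠ 1` for `N ≥ 2`, by a 2-adic argument
-/

set_option autoImplicit false

namespace Pool.Agent.Lib_helper51.FA

open Finset

theorem S_ne_one {N : ℕ} (hN : 2 ≤ N) : S N ≠ 1 := by
  intro hS
  set gQ : ℕ → ℚ := fun q => (∏ r ∈ q.primeFactors, (1 - (r : ℚ))) / q with hgQ
  have hcast : ((∑ q ∈ Icc 1 N, gQ q : ℚ) : ℝ) = S N := by
    unfold S
    rw [hgQ]
    push_cast
    rfl
  have h1 : ∑ q ∈ Icc 1 N, gQ q = 1 := by
    have : ((∑ q ∈ Icc 1 N, gQ q : ℚ) : ℝ) = ((1 : ℚ) : ℝ) := by rw [hcast, hS]; norm_num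
    exact_mod_cast this
  set k := Nat.log 2 N with hk
  have hk1 : 1 ≤ k := by
    rw [hk]
    exact Nat.le_log_of_pow_le (by norm_num) (by simpa using hN)
  have hkN : 2 ^ k ≤ N := Nat.pow_log_le_self 2 (by omega)
  have hNk : N < 2 ^ (k + 1) := Nat.lt_pow_succ_log_self (by norm_num) N
  have hmem : 2 ^ k ∈ Icc 1 N := mem_Icc.2 ⟨Nat.one_le_two_pow, hkN⟩
  rw [← add_sum_erase _ _ hmem] at h1
  have hpow : (1 : ℚ) < (2 : ℚ) ^ k := one_lt_pow₀ (by norm_num) (by omega)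
  have : Fact (Nat.Prime 2) := ⟨Nat.prime_two⟩
  -- the other terms
  have hsmall : padicNorm 2 (∑ q ∈ (Icc 1 N).erase (2 ^ k), gQ q) < (2 : ℚ) ^ k := by
    apply padicNorm.sum_lt' _ (by positivity)
    intro q hq
    rw [mem_erase, mem_Icc] at hq
    obtain ⟨hne, hq1, hqN⟩ := hq
    have hq0 : (q : ℚ) ≠ 0 := by
      have : q ≠ 0 := by omega
      exact_mod_cast this
    have hnd : ¬ 2 ^ k ∣ q := by
      rintro ⟨c, rfl⟩
      have hc : c = 1 := by
        have h3 : c < 2 := by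
          by_contra hcon
          have : 2 ^ k * 2 ≤ 2 ^ k * c := Nat.mul_le_mul_left _ (by omega)
          rw [pow_succ] at hNk
          omega
        have h4 : c ≠ 0 := by
          rintro rfl
          simp at hq1
        omega
      rw [hc, mul_one] at hne
      exact hne rfl
    have hqn : (2 : ℚ) ^ (-(k : ℤ)) < padicNorm 2 (q : ℚ) := by
      by_contra hcon
      have h5 := (padicNorm.dvd_iff_norm_le (p := 2) (n := k) (z := (q : ℤ))).2
        (by push_cast; exact not_lt.1 hcon)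
      apply hnd
      exact_mod_cast h5
    have hprod : padicNorm 2 (∏ r ∈ q.primeFactors, (1 - (r : ℚ))) ≤ 1 := by
      have : (∏ r ∈ q.primeFactors, (1 - (r : ℚ))) = ((∏ r ∈ q.primeFactors, (1 - (r : ℤ)) : ℤ) : ℚ) := by
        push_cast
        rfl
      rw [this]
      exact padicNorm.of_int _
    have hqpos : 0 < padicNorm 2 (q : ℚ) := lt_of_le_of_ne (padicNorm.nonneg _)
      (Ne.symm (padicNorm.nonzero hq0))
    show padicNorm 2 ((∏ r ∈ q.primeFactors, (1 - (r : ℚ))) / q) < _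
    rw [padicNorm.div, div_lt_iff₀ hqpos]
    refine lt_of_le_of_lt hprod ?_
    have h6 : (2 : ℚ) ^ k * (2 : ℚ) ^ (-(k : ℤ)) = 1 := by
      rw [zpow_neg, zpow_natCast]
      exact mul_inv_cancel₀ (by positivity)
    rw [← h6]
    exact mul_lt_mul_of_pos_left hqn (by positivity)
  -- the term of `2 ^ k`
  have hbig : padicNorm 2 (gQ (2 ^ k)) = (2 : ℚ) ^ k := by
    have e : gQ (2 ^ k) = -(((2 : ℕ) : ℚ) ^ k)⁻¹ := by
      rw [hgQ]
      simp only
      rw [Nat.primeFactors_prime_pow (by omega) Nat.prime_two, prod_singleton]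
      push_cast
      rw [div_eq_mul_inv]
      ring
    rw [e, padicNorm.neg]
    have h7 : (((2 : ℕ) : ℚ) ^ k)⁻¹ = 1 / ((2 : ℕ) : ℚ) ^ k := by rw [one_div]
    rw [h7, padicNorm.div, padicNorm.one]
    have h8 : ∀ j : ℕ, padicNorm 2 (((2 : ℕ) : ℚ) ^ j) = ((2 : ℚ) ^ j)⁻¹ := by
      intro j
      induction j with
      | zero => simp
      | succ j ih =>
        rw [pow_succ, padicNorm.mul, ih, padicNorm.padicNorm_p_of_prime, pow_succ, mul_inv]
        norm_num
    rw [h8, one_div, inv_inv]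
  have h9 : gQ (2 ^ k) = 1 - ∑ q ∈ (Icc 1 N).erase (2 ^ k), gQ q := by linarith
  rw [h9] at hbig
  have h10 := padicNorm.sub (p := 2) (q := 1) (r := ∑ q ∈ (Icc 1 N).erase (2 ^ k), gQ q)
  rw [padicNorm.one, hbig] at h10
  have h11 := lt_of_le_of_lt h10 (max_lt hpow hsmall)
  exact lt_irrefl _ h11

theorem DeltaW_ne_zero {p : ℕ} (hp : p.Prime) (h2 : p ≠ 2) : DeltaW p ≠ 0 := by
  have h3 : 2 ≤ p - 1 := by
    have := hp.two_le
    omega
  have h1 : (1 : ℝ) < p := by exact_mod_cast hp.one_lt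
  have h4 : (0 : ℝ) < (p - 1) / (6 * p) := div_pos (by linarith) (by positivity)
  rw [DeltaW_eq hp]
  exact mul_ne_zero h4.ne' (sub_ne_zero.2 (S_ne_one h3))

end Pool.Agent.Lib_helper51.FA
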