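import Pool.Agent.Lib_helper51.FA.Main

/-!
# The prime step in terms of the Mertens function
-/

set_option autoImplicit false

namespace Pool.Agent.Lib_helper51.FA

open Finset
open scoped ArithmeticFunction.Moebius

theorem S_mertens (N : ℕ) : S N = ∑ d ∈ Icc 1 N, (Mertens (N / d) : ℝ) / d := by
  rw [S_eq, gg_sum]
  rfl

theorem mertens_succ (n : ℕ) : Mertens (n + 1) = Mertens n + ArithmeticFunction.moebius (n + 1) := by
  unfold Mertens
  rw [Finset.sum_Icc_succ_top (by omega)]

theorem mertens_prime {p : ℕ} (hp : p.Prime) : Mertens (p - 1) = Mertens p + 1 := by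
  obtain ⟨m, rfl⟩ : ∃ m, p = m + 1 := ⟨p - 1, by have := hp.two_le; omega⟩
  rw [mertens_succ, ArithmeticFunction.moebius_apply_prime hp, Nat.add_sub_cancel]
  ring

theorem div_prime {p d : ℕ} (hp : p.Prime) (h2 : 2 ≤ d) (hd : d < p) : (p - 1) / d = p / d := by
  obtain ⟨m, rfl⟩ : ∃ m, p = m + 1 := ⟨p - 1, by have := hp.two_le; omega⟩
  have hn : ¬ d ∣ m + 1 := by
    intro h
    rcases (Nat.dvd_prime hp).1 h with h | h <;> omega
  rw [Nat.add_sub_cancel, Nat.succ_div, if_neg hn, add_zero]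

theorem Icc_split {p : ℕ} (hp : p.Prime) : Icc 1 (p - 1) = insert 1 (Icc 2 (p - 1)) := by
  ext x
  have := hp.two_le
  simp only [mem_insert, mem_Icc]
  omega

theorem one_notMem (n : ℕ) : 1 ∉ Icc 2 n := by simp

theorem S_prime {p : ℕ} (hp : p.Prime) :
    S (p - 1) - 1 = (Mertens p : ℝ) + ∑ d ∈ Icc 2 (p - 1), (Mertens (p / d) : ℝ) / d := by
  rw [S_mertens, Icc_split hp, sum_insert (one_notMem _), Nat.div_one, mertens_prime hp,
    sum_congr rfl (g := fun d : ℕ => (Mertens (p / d) : ℝ) / d)]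
  · push_cast
    ring
  · intro d hd
    rw [mem_Icc] at hd
    have := hp.two_le
    rw [div_prime hp hd.1 (by omega)]

/-- the formula -/
theorem DeltaW_mertens {p : ℕ} (hp : p.Prime) :
    DeltaW p = (p - 1) / (6 * p) * ∑ d ∈ Icc 1 (p - 1), (Mertens (p / d) : ℝ) / d := by
  rw [DeltaW_eq hp, S_prime hp, Icc_split hp, sum_insert (one_notMem _), Nat.div_one]
  push_cast
  rw [div_one]

theorem DeltaW_pos {p : ℕ} (hp : p.Prime) :
    0 < DeltaW p ↔ -(Mertens p : ℝ) < ∑ d ∈ Icc 2 (p - 1), (Mertens (p / d) : ℝ) / d := by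
  rw [DeltaW_pos_iff hp, ← sub_pos, S_prime hp]
  constructor <;> intro h <;> linarith

theorem sum_inv_le {n : ℕ} (hn : 1 ≤ n) : ∑ d ∈ Icc 2 n, (1 : ℝ) / d ≤ Real.log n := by
  induction n, hn using Nat.le_induction with
  | base => simp
  | succ n hn ih =>
    have hn0 : (0 : ℝ) < n := by exact_mod_cast hn
    rw [Finset.sum_Icc_succ_top (by omega)]
    have h1 : Real.log n + 1 / ((n + 1 : ℕ) : ℝ) ≤ Real.log ((n + 1 : ℕ) : ℝ) := by
      have h2 := Real.add_one_le_exp (-(1 / ((n : ℝ) + 1)))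
      have h3 : (n : ℝ) / (n + 1) ≤ Real.exp (-(1 / ((n : ℝ) + 1))) := by
        refine le_trans (le_of_eq ?_) h2
        field_simp
        ring
      have h4 := Real.log_le_log (by positivity) h3
      rw [Real.log_exp, Real.log_div hn0.ne' (by positivity)] at h4
      push_cast
      linarith
    linarith

/-- agreement at `p` forces a large positive value of the Mertens function before `p / 2` -/
theorem large_value {p : ℕ} (hp : p.Prime) (hM : Mertens p ≤ -3) (h : 0 < DeltaW p) :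
    ∃ d : ℕ, 2 ≤ d ∧ d < p ∧ -(Mertens p : ℝ) < Mertens (p / d) * Real.log p := by
  by_contra hcon
  push Not at hcon
  rw [DeltaW_pos hp] at h
  have hMr : (Mertens p : ℝ) ≤ -3 := by exact_mod_cast hM
  have hp1 : (1 : ℝ) < p := by exact_mod_cast hp.one_lt
  have hlog : 0 < Real.log p := Real.log_pos hp1
  have h1 : ∑ d ∈ Icc 2 (p - 1), (Mertens (p / d) : ℝ) / d ≤
      ∑ d ∈ Icc 2 (p - 1), (-(Mertens p : ℝ) / Real.log p) * (1 / d) := by
    apply sum_le_sum
    intro d hd
    rw [mem_Icc] at hd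
    have h2 := hcon d hd.1 (by have := hp.two_le; omega)
    have hd0 : (0 : ℝ) < d := by
      have : 0 < d := by omega
      exact_mod_cast this
    rw [mul_one_div]
    apply div_le_div_of_nonneg_right _ hd0.le
    rw [le_div_iff₀ hlog]
    exact h2
  rw [← mul_sum] at h1
  have h3 : ∑ d ∈ Icc 2 (p - 1), (1 : ℝ) / d ≤ Real.log p := by
    have h4 := sum_inv_le (n := p - 1) (by have := hp.two_le; omega)
    refine h4.trans (Real.log_le_log ?_ ?_)
    · have : 0 < p - 1 := by have := hp.two_le; omega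
      exact_mod_cast this
    · exact_mod_cast Nat.sub_le p 1
  have h5 : (-(Mertens p : ℝ) / Real.log p) * ∑ d ∈ Icc 2 (p - 1), (1 : ℝ) / d ≤
      (-(Mertens p : ℝ) / Real.log p) * Real.log p :=
    mul_le_mul_of_nonneg_left h3 (div_nonneg (by linarith) hlog.le)
  rw [div_mul_cancel₀ _ hlog.ne'] at h5
  linarith

end Pool.Agent.Lib_helper51.FA
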